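import Pool.Agent.Q72.EG.Fam

/-!
# Cocountable definable sets in the complex exponential field: systems over hypersurfaces without
flat limits

Quasiminimality predicts that every set of complex numbers which is definable (or
automorphism-invariant) in `(ℂ, +, ·, exp)` with finitely many parameters is countable or
cocountable.  Here we treat the following sets, existential formulas with `n + 1` quantified
variables.

Let `n ≥ 2` and let `P` be an irreducible polynomial in `x_1, …, x_n`.  Let `A_j(s; x, t)`,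
`B_j(s; x, t)`, `j ≤ n`, be polynomials in `x_1, …, x_n, t` whose coefficients are entire functions of `s`
(for example exponential polynomials with parameters).  Consider the set of the `s ∈ ℂ` such that the
system

  `P(x) = 0`, `e^{x_j} = A_j(s; x, t) / B_j(s; x, t)` (`j ≤ n`)

of `n + 1` equations in the `n + 1` unknowns `x_1, …, x_n, t` has a solution.  We prove that it is
cocountable, and that for all `s` outside of a countable set the solutions are Zariski dense in the
variety `P(x) = 0` of `ℂ^n × ℂ`, if for some `s = s₀` the `A_j` and `B_j` are not divisible by `P` and the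
monomials `∏ (A_j / B_j)^{m_j}`, `m ≠ 0`, depend on `t`, and no polynomial
`f (l_1 x_1 + … + l_n x_n)`, `l` real and not zero, `f` not constant, is a limit of multiples of
translates `P (x + i k)`, `k` real.
-/

set_option autoImplicit false

open MvPolynomial Filter Topology

namespace Pool.Agent.Results.MP_a12702_lc.FlatLimitSystems

/-- the point `(t, x)`; the coordinate `none` is `t` -/
def point {n : ℕ} (t : ℂ) (x : Fin n → ℂ) : Option (Fin n) → ℂ := fun o => o.elim t x

/-- `P` as a polynomial in `t, x_1, …, x_n` -/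
noncomputable def ext {n : ℕ} (P : MvPolynomial (Fin n) ℂ) : MvPolynomial (Option (Fin n)) ℂ :=
  rename some P

/-- the polynomial `∑_k f_k(s) a_k(x, t)` -/
noncomputable def fam {n K : ℕ} (f : Fin K → ℂ → ℂ) (a : Fin K → MvPolynomial (Option (Fin n)) ℂ)
    (s : ℂ) : MvPolynomial (Option (Fin n)) ℂ :=
  ∑ k, C (f k s) * a k

/-- the quotient `U / V` depends on `t` on the variety `P(x) = 0`: its derivative with respect to
`t` is not zero there -/
def DependsOnT {n : ℕ} (P : MvPolynomial (Fin n) ℂ) (U V : MvPolynomial (Option (Fin n)) ℂ) :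
    Prop :=
  ¬ ext P ∣ pderiv none U * V - U * pderiv none V

/-- the numerator of `∏ (A_j / B_j)^{m_j}`; its denominator is `monomialNum B A m` -/
noncomputable def monomialNum {n : ℕ} (A B : Fin n → MvPolynomial (Option (Fin n)) ℂ)
    (m : Fin n → ℤ) : MvPolynomial (Option (Fin n)) ℂ :=
  ∏ j, (A j ^ (m j).toNat * B j ^ (-m j).toNat)

/-- the value of the polynomial `f (l_1 x_1 + … + l_n x_n)` is, for all `x`, the limit of
`c_j P (x + i k_j)` for a sequence of real vectors `k_j` and a sequence of numbers `c_j` -/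
def FlatLimit {n : ℕ} (P : MvPolynomial (Fin n) ℂ) (l : Fin n → ℝ) (f : Polynomial ℂ) : Prop :=
  ∃ (k : ℕ → Fin n → ℝ) (c : ℕ → ℂ), ∀ x : Fin n → ℂ,
    Tendsto (fun j => c j * eval (fun i => x i + Complex.I * (k j i : ℂ)) P) atTop
      (𝓝 (f.eval (∑ i, (l i : ℂ) * x i)))

theorem aeval_lin_eval {n : ℕ} (l : Fin n → ℝ) (f : Polynomial ℂ) (x : Fin n → ℂ) :
    eval x (Polynomial.aeval (Pool.Agent.W996.EC.lin l) f) =
      f.eval (∑ i, (l i : ℂ) * x i) := by
  rw [← Pool.Agent.W996.EC.eval_lin]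
  rw [← MvPolynomial.coe_aeval_eq_eval]
  simp only [RingHom.coe_coe]
  rw [← Polynomial.aeval_algHom_apply]
  simp

theorem flat_of_limOne {n : ℕ} {P : MvPolynomial (Fin n) ℂ} {l : Fin n → ℝ} {f : Polynomial ℂ}
    (h : Pool.Agent.W996.EC.LimOne P (Polynomial.aeval (Pool.Agent.W996.EC.lin l) f)) :
    FlatLimit P l f := by
  obtain ⟨-, k, c, hk⟩ := h
  refine ⟨k, c, fun x => ?_⟩
  have h1 := Pool.Agent.W578.ECPt.conv_eval n _ _ hk (fun _ => x) x tendsto_const_nhds
  rw [aeval_lin_eval] at h1
  refine h1.congr fun j => ?_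
  rw [map_mul, Pool.Agent.W996.EC.eval_tr, eval_C]
  simp

theorem result {n K : ℕ} (hn : 2 ≤ n) (P : MvPolynomial (Fin n) ℂ) (hP : Irreducible P)
    -- the coefficients of `A_j` and `B_j` are entire functions of `s`
    (f g : Fin n → Fin K → ℂ → ℂ) (hf : ∀ j k, Differentiable ℂ (f j k))
    (hg : ∀ j k, Differentiable ℂ (g j k))
    (a b : Fin n → Fin K → MvPolynomial (Option (Fin n)) ℂ)
    (s₀ : ℂ) (hA : ∀ j, ¬ ext P ∣ fam (f j) (a j) s₀) (hB : ∀ j, ¬ ext P ∣ fam (g j) (b j) s₀)
    (hm : ∀ m : Fin n → ℤ, m ≠ 0 →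
      DependsOnT P (monomialNum (fun j => fam (f j) (a j) s₀) (fun j => fam (g j) (b j) s₀) m)
        (monomialNum (fun j => fam (g j) (b j) s₀) (fun j => fam (f j) (a j) s₀) m))
    (hfl : ¬ ∃ (l : Fin n → ℝ) (q : Polynomial ℂ), l ≠ 0 ∧ 1 ≤ q.natDegree ∧ FlatLimit P l q) :
    -- for all `s` outside of a countable set the solutions are Zariski dense in `P(x) = 0`
    ∃ Z : Set ℂ, Z.Countable ∧ ∀ s, s ∉ Z → ∀ G : MvPolynomial (Option (Fin n)) ℂ, ¬ ext P ∣ G →
      ∃ (x : Fin n → ℂ) (t : ℂ), eval x P = 0 ∧ eval (point t x) G ≠ 0 ∧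
        ∀ j, eval (point t x) (fam (g j) (b j) s) ≠ 0 ∧
          Complex.exp (x j) =
            eval (point t x) (fam (f j) (a j) s) / eval (point t x) (fam (g j) (b j) s) := by
  have h := Pool.Agent.Q72.EG.family hn hP (fun j => fam (f j) (a j)) (fun j => fam (g j) (b j))
    (fun j => ⟨Fin K, inferInstance, f j, a j, hf j, fun s => rfl⟩)
    (fun j => ⟨Fin K, inferInstance, g j, b j, hg j, fun s => rfl⟩) s₀ hA hB (by
      refine Or.inr (Or.inr ⟨hm, ?_⟩)
      rintro ⟨l, q, hl, hq, hlim⟩
      exact hfl ⟨l, q, hl, hq, flat_of_limOne hlim⟩)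
  refine ⟨_, h, fun s hs G hG => ?_⟩
  rw [Set.mem_ofPred_eq, not_not] at hs
  obtain ⟨x, t, h1, h2, h3⟩ := hs G hG
  exact ⟨x, t, h1, h2, fun j => ⟨(h3 j).1, (eq_div_iff (h3 j).1).2 (h3 j).2⟩⟩

end Pool.Agent.Results.MP_a12702_lc.FlatLimitSystems
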