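import Pool.Agent.Q72.EG.Fam

/-!
# Cocountable definable sets in the complex exponential field: systems over a hypersurface

Quasiminimality predicts that every set of complex numbers which is definable (or
automorphism-invariant) in `(ℂ, +, ·, exp)` with finitely many parameters is countable or
cocountable.  Here we treat the following sets, existential formulas with `n + 1` quantified
variables.

Let `n ≥ 2` and let `P` be an irreducible polynomial in `x_1, …, x_n`.  Let `A_j(s; x, t)`,
`B_j(s; x, t)`, `j ≤ n`, be polynomials in `x_1, …, x_n, t` whose coefficients are entire functions of `s`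
(for example exponential polynomials with parameters).  Consider the set of the `s ∈ ℂ` such that the
system

  `P(x) = 0`, `e^{x_j} = A_j(s; x, t) / B_j(s; x, t)` (`j ≤ n`)

of `n + 1` equations in the `n + 1` unknowns `x_1, …, x_n, t` has a solution.  We prove that it is
cocountable, and that for all `s` outside of a countable set the solutions are Zariski dense in the
variety `P(x) = 0` of `ℂ^n × ℂ`, in the following cases; it is always assumed that for some `s = s₀`
the `A_j` and `B_j` are not divisible by `P`.

(a) The leading form of `P` has no real zero except `0`, and for some `j` and `s = s₀` the quotient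
`A_j / B_j` depends on `t` (on `P = 0`).

(b) The leading form of `P` has an irreducible factor which is not a constant multiple of a real
polynomial, and for `s = s₀` and all linearly independent `m, m'` one of the two monomials
`∏ (A_j / B_j)^{m_j}`, `∏ (A_j / B_j)^{m'_j}` depends on `t`.

(Conditions on the lower terms of `P` are treated in `FlatLimitSystems`.)
-/

set_option autoImplicit false

open MvPolynomial Filter Topology

namespace Pool.Agent.Results.MP_a12702_lc.HypersurfaceSystems

/-- the point `(t, x)`; the coordinate `none` is `t` -/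
def point {n : ℕ} (t : ℂ) (x : Fin n → ℂ) : Option (Fin n) → ℂ := fun o => o.elim t x

/-- `P` as a polynomial in `t, x_1, …, x_n` -/
noncomputable def ext {n : ℕ} (P : MvPolynomial (Fin n) ℂ) : MvPolynomial (Option (Fin n)) ℂ :=
  rename some P

/-- the polynomial `∑_k f_k(s) a_k(x, t)` -/
noncomputable def fam {n K : ℕ} (f : Fin K → ℂ → ℂ) (a : Fin K → MvPolynomial (Option (Fin n)) ℂ)
    (s : ℂ) : MvPolynomial (Option (Fin n)) ℂ :=
  ∑ k, C (f k s) * a k

/-- the quotient `U / V` depends on `t` on the variety `P(x) = 0`: its derivative with respect to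
`t` is not zero there -/
def DependsOnT {n : ℕ} (P : MvPolynomial (Fin n) ℂ) (U V : MvPolynomial (Option (Fin n)) ℂ) :
    Prop :=
  ¬ ext P ∣ pderiv none U * V - U * pderiv none V

/-- the numerator of `∏ (A_j / B_j)^{m_j}`; its denominator is `monomialNum B A m` -/
noncomputable def monomialNum {n : ℕ} (A B : Fin n → MvPolynomial (Option (Fin n)) ℂ)
    (m : Fin n → ℤ) : MvPolynomial (Option (Fin n)) ℂ :=
  ∏ j, (A j ^ (m j).toNat * B j ^ (-m j).toNat)

/-- the leading form of `P` -/
noncomputable def leading {n : ℕ} (P : MvPolynomial (Fin n) ℂ) : MvPolynomial (Fin n) ℂ :=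
  homogeneousComponent P.totalDegree P

/-- `G` is a constant multiple of a real polynomial -/
def RealUpToConstant {n : ℕ} (G : MvPolynomial (Fin n) ℂ) : Prop :=
  ∃ c : ℂ, c ≠ 0 ∧ ∀ m, (coeff m (C c * G)).im = 0

theorem result {n K : ℕ} (hn : 2 ≤ n) (P : MvPolynomial (Fin n) ℂ) (hP : Irreducible P)
    -- the coefficients of `A_j` and `B_j` are entire functions of `s`
    (f g : Fin n → Fin K → ℂ → ℂ) (hf : ∀ j k, Differentiable ℂ (f j k))
    (hg : ∀ j k, Differentiable ℂ (g j k))
    (a b : Fin n → Fin K → MvPolynomial (Option (Fin n)) ℂ)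
    (s₀ : ℂ) (hA : ∀ j, ¬ ext P ∣ fam (f j) (a j) s₀) (hB : ∀ j, ¬ ext P ∣ fam (g j) (b j) s₀)
    (hcase :
      -- (a) the leading form has no real zero
      ((∀ κ : Fin n → ℝ, κ ≠ 0 → eval (fun i => (κ i : ℂ)) (leading P) ≠ 0) ∧
        ∃ j, DependsOnT P (fam (f j) (a j) s₀) (fam (g j) (b j) s₀)) ∨
      -- (b) the leading form has a factor which is not real
      ((∃ G, Irreducible G ∧ G ∣ leading P ∧ ¬ RealUpToConstant G) ∧
        ∀ m m' : Fin n → ℤ, LinearIndependent ℤ ![m, m'] →
          DependsOnT P (monomialNum (fun j => fam (f j) (a j) s₀) (fun j => fam (g j) (b j) s₀) m)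
            (monomialNum (fun j => fam (g j) (b j) s₀) (fun j => fam (f j) (a j) s₀) m) ∨
          DependsOnT P (monomialNum (fun j => fam (f j) (a j) s₀) (fun j => fam (g j) (b j) s₀) m')
            (monomialNum (fun j => fam (g j) (b j) s₀) (fun j => fam (f j) (a j) s₀) m'))) :
    -- for all `s` outside of a countable set the solutions are Zariski dense in `P(x) = 0`
    ∃ Z : Set ℂ, Z.Countable ∧ ∀ s, s ∉ Z → ∀ G : MvPolynomial (Option (Fin n)) ℂ, ¬ ext P ∣ G →
      ∃ (x : Fin n → ℂ) (t : ℂ), eval x P = 0 ∧ eval (point t x) G ≠ 0 ∧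
        ∀ j, eval (point t x) (fam (g j) (b j) s) ≠ 0 ∧
          Complex.exp (x j) =
            eval (point t x) (fam (f j) (a j) s) / eval (point t x) (fam (g j) (b j) s) := by
  have h := Pool.Agent.Q72.EG.family hn hP (fun j => fam (f j) (a j)) (fun j => fam (g j) (b j))
    (fun j => ⟨Fin K, inferInstance, f j, a j, hf j, fun s => rfl⟩)
    (fun j => ⟨Fin K, inferInstance, g j, b j, hg j, fun s => rfl⟩) s₀ hA hB (by
      rcases hcase with ⟨h1, h2⟩ | h1
      · exact Or.inl ⟨hn, h1, h2⟩
      · exact Or.inr (Or.inl h1))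
  refine ⟨_, h, fun s hs G hG => ?_⟩
  rw [Set.mem_ofPred_eq, not_not] at hs
  obtain ⟨x, t, h1, h2, h3⟩ := hs G hG
  exact ⟨x, t, h1, h2, fun j => ⟨(h3 j).1, (eq_div_iff (h3 j).1).2 (h3 j).2⟩⟩

end Pool.Agent.Results.MP_a12702_lc.HypersurfaceSystems
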