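import Pool.Agent.Q72.EL.FamX

/-!
# Cocountable definable sets in the complex exponential field: systems over varieties of
intermediate dimension

Quasiminimality predicts that every set of complex numbers which is definable (or
automorphism-invariant) in `(ℂ, +, ·, exp)` with finitely many parameters is countable or
cocountable.  Here we treat the following sets, existential formulas with `n + c` quantified
variables.

Let `X` be an irreducible subvariety of `ℂ^n` of dimension at most `n - c` (the zero set of the prime ideal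
`I`).  Let `A_j(s; x, t)`, `B_j(s; x, t)`, `j ≤ n`, be polynomials in `x_1, …, x_n, t_1, …, t_c` whose
coefficients are entire functions of `s` (for example exponential polynomials with parameters).
Consider the set of the `s ∈ ℂ` such that the system

  `x ∈ X`, `e^{x_j} = A_j(s; x, t) / B_j(s; x, t)` (`j ≤ n`)

in the unknowns `x ∈ ℂ^n`, `t ∈ ℂ^c` has a solution.  We prove that it is cocountable, and that for
all `s` outside of a countable set the solutions are Zariski dense in `X × ℂ^c`, if for some `s = s₀`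
the `A_j`, the `B_j` and the Jacobian determinant with respect to `t_1, …, t_c` of some `c` of the
quotients `A_j / B_j` do not vanish identically on `X × ℂ^c`, and `X` satisfies one of the following
conditions.

(H) For all linearly independent rational vectors `a_1, …, a_c` the set of the `λ ∈ ℝ^c` such that for
some `κ ∈ ℝ^n` the vector `z = ∑ λ_k a_k + i κ` is transversal is dense.  Here `z` is called transversal
if it is a reduced point of the asymptotic cone of `X` at which the tangent space is a complement of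
the space spanned by the `a_k`: there are `P_1, …, P_c ∈ I` and `Q` with `Q I ⊆ (P_1, …, P_c)`, whose
leading forms `F_j`, `Q_0` satisfy `F_j(z) = 0`, `det (∂F_j/∂a_k (z)) ≠ 0`, `Q_0(z) ≠ 0`.

(L) There are linear forms `q_1, …, q_c` on `ℂ^n` whose real and imaginary parts are linearly
independent, with `det (q_j · a_k) ≠ 0` for all linearly independent rational `a_1, …, a_c`, and
polynomials `P_j`, `Q` as above such that the leading form of `P_j` is `q_j G_j` and the `G_j` and the leading
form of `Q` do not vanish identically on the subspace `q_1 = … = q_c = 0`.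

For example `X` may be a general affine subspace of dimension at least `n / 2`; then the system is a
system of `n` equations in `n` unknowns with exponentials of linear forms.
-/

set_option autoImplicit false

open MvPolynomial

namespace Pool.Agent.Results.MP_a12702_lc.IntermediateSystems

/-- the leading form of `P` -/
noncomputable def leading {n : ℕ} (P : MvPolynomial (Fin n) ℂ) : MvPolynomial (Fin n) ℂ :=
  homogeneousComponent P.totalDegree P

/-- outside of `Q = 0` the zero set of `I` is given by the equations `P_j = 0` -/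
def GivenBy {n c : ℕ} (I : Ideal (MvPolynomial (Fin n) ℂ)) (P : Fin c → MvPolynomial (Fin n) ℂ)
    (Q : MvPolynomial (Fin n) ℂ) : Prop :=
  (∀ j, P j ∈ I) ∧ ∀ g ∈ I, Q * g ∈ Ideal.span (Set.range P)

/-- `z` is a reduced point of the asymptotic cone of the zero set of `I`, at which the tangent
space is a complement of the space spanned by the `a_k` -/
def Transversal {n c : ℕ} (I : Ideal (MvPolynomial (Fin n) ℂ)) (a : Fin n → Fin c → ℚ)
    (z : Fin n → ℂ) : Prop :=
  ∃ (P : Fin c → MvPolynomial (Fin n) ℂ) (Q : MvPolynomial (Fin n) ℂ), GivenBy I P Q ∧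
    (∀ j, eval z (leading (P j)) = 0) ∧
    Matrix.det (Matrix.of fun j k : Fin c =>
      ∑ l, ((a l k : ℚ) : ℂ) * eval z (pderiv l (leading (P j)))) ≠ 0 ∧
    eval z (leading Q) ≠ 0

/-- Condition (H). -/
def ConditionH {n : ℕ} (I : Ideal (MvPolynomial (Fin n) ℂ)) (c : ℕ) : Prop :=
  ∀ a : Fin n → Fin c → ℚ, LinearIndependent ℚ (fun (k : Fin c) (l : Fin n) => a l k) →
    Dense {t : Fin c → ℝ | ∃ κ : Fin n → ℝ,
      Transversal I a fun l => ∑ k, (t k : ℂ) * ((a l k : ℚ) : ℂ) + Complex.I * (κ l : ℂ)}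

/-- Condition (L). -/
def ConditionL {n : ℕ} (I : Ideal (MvPolynomial (Fin n) ℂ)) (c : ℕ) : Prop :=
  ∃ (q : Fin c → Fin n → ℂ) (P G : Fin c → MvPolynomial (Fin n) ℂ) (Q : MvPolynomial (Fin n) ℂ),
    LinearIndependent ℝ (Sum.elim (fun (j : Fin c) (l : Fin n) => (q j l).re)
      (fun (j : Fin c) (l : Fin n) => (q j l).im)) ∧
    (∀ a : Fin n → Fin c → ℚ, LinearIndependent ℚ (fun (k : Fin c) (l : Fin n) => a l k) →
      Matrix.det (Matrix.of fun j k : Fin c => ∑ l, q j l * ((a l k : ℚ) : ℂ)) ≠ 0) ∧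
    GivenBy I P Q ∧
    (∀ j, leading (P j) = (∑ l, C (q j l) * X l) * G j) ∧
    (∀ j, ∃ z : Fin n → ℂ, (∀ i, ∑ l, q i l * z l = 0) ∧ eval z (G j) ≠ 0) ∧
    ∃ z : Fin n → ℂ, (∀ i, ∑ l, q i l * z l = 0) ∧ eval z (leading Q) ≠ 0

/-- the polynomial `∑_k f_k(s) a_k(x, t)` -/
noncomputable def fam {n c K : ℕ} (f : Fin K → ℂ → ℂ) (a : Fin K → MvPolynomial (Fin c ⊕ Fin n) ℂ)
    (s : ℂ) : MvPolynomial (Fin c ⊕ Fin n) ℂ :=
  ∑ k, C (f k s) * a k

/-- the polynomial `U(x, t)` does not vanish identically on the product of the zero set of `I`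
with `ℂ^c` -/
def NotZeroOn {n c : ℕ} (I : Ideal (MvPolynomial (Fin n) ℂ))
    (U : MvPolynomial (Fin c ⊕ Fin n) ℂ) : Prop :=
  ∃ (x : Fin n → ℂ) (t : Fin c → ℂ), (∀ g ∈ I, eval x g = 0) ∧ eval (Sum.elim t x) U ≠ 0

/-- the determinant of the numerators of the derivatives of `A_1/B_1, …, A_c/B_c` with respect to
`t_1, …, t_c` -/
noncomputable def jacobian {n c : ℕ} (A B : Fin c → MvPolynomial (Fin c ⊕ Fin n) ℂ) :
    MvPolynomial (Fin c ⊕ Fin n) ℂ :=
  Matrix.det (Matrix.of fun j k : Fin c =>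
    pderiv (Sum.inl k) (A j) * B j - A j * pderiv (Sum.inl k) (B j))

theorem hyp_of_H {n c : ℕ} {I : Ideal (MvPolynomial (Fin n) ℂ)} (h : ConditionH I c) :
    Pool.Agent.Q72.EL.HypH c I := by
  intro a ha lam ε hε
  obtain ⟨μ, hμ1, κ, P, Q, ⟨hP, hQ⟩, h1, h2, h3⟩ := Metric.dense_iff.1 (h a ha) lam ε hε
  refine ⟨μ, fun j => ?_, κ, P, Q, hP, hQ, h1, h2, h3⟩
  rw [Metric.mem_ball, dist_eq_norm] at hμ1
  exact (norm_le_pi_norm (μ - lam) j).trans_lt hμ1

theorem hyp_of_L {n c : ℕ} {I : Ideal (MvPolynomial (Fin n) ℂ)} (h : ConditionL I c) :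
    Pool.Agent.Q72.EL.HypH c I := by
  obtain ⟨q, P, G, Q, hq, hdet, ⟨hP, hQ⟩, htop, hG, hQ0⟩ := h
  intro a ha lam ε hε
  exact Pool.Agent.Q72.EL.LM.linq1 q I P G Q hq hP hQ htop hG hQ0 a (hdet a ha) lam ε hε

theorem result {n c K : ℕ} (I : Ideal (MvPolynomial (Fin n) ℂ)) (hI : I.IsPrime)
    -- the dimension of the zero set `X` of `I` is at most `n - c`
    (hdim : Algebra.trdeg ℂ (MvPolynomial (Fin n) ℂ ⧸ I) + (c : Cardinal) ≤ (n : Cardinal))
    (hX : ConditionH I c ∨ ConditionL I c)
    -- the coefficients of `A_j` and `B_j` are entire functions of `s`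
    (f g : Fin n → Fin K → ℂ → ℂ) (hf : ∀ j k, Differentiable ℂ (f j k))
    (hg : ∀ j k, Differentiable ℂ (g j k))
    (a b : Fin n → Fin K → MvPolynomial (Fin c ⊕ Fin n) ℂ)
    (s₀ : ℂ) (hA : ∀ j, NotZeroOn I (fam (f j) (a j) s₀)) (hB : ∀ j, NotZeroOn I (fam (g j) (b j) s₀))
    (i : Fin c → Fin n) (hJ : NotZeroOn I
      (jacobian (fun j => fam (f (i j)) (a (i j)) s₀) fun j => fam (g (i j)) (b (i j)) s₀)) :
    -- for all `s` outside of a countable set the solutions are Zariski dense in `X × ℂ^c`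
    ∃ Z : Set ℂ, Z.Countable ∧ ∀ s, s ∉ Z →
      ∀ G : MvPolynomial (Fin c ⊕ Fin n) ℂ, NotZeroOn I G →
      ∃ (x : Fin n → ℂ) (t : Fin c → ℂ), (∀ g ∈ I, eval x g = 0) ∧ eval (Sum.elim t x) G ≠ 0 ∧
        ∀ j, eval (Sum.elim t x) (fam (g j) (b j) s) ≠ 0 ∧
          Complex.exp (x j) = eval (Sum.elim t x) (fam (f j) (a j) s) /
            eval (Sum.elim t x) (fam (g j) (b j) s) := by
  have hX' : Pool.Agent.Q72.EL.HypH c I := hX.elim hyp_of_H hyp_of_L
  have hnz := fun H => Pool.Agent.Q72.EL.nz_iff (c := c) hI H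
  obtain ⟨Z, hZ, h⟩ := Pool.Agent.Q72.EL.all_fame Pool.Agent.Q72.EL.dom Pool.Agent.Q72.EL.slope
    n c I hI hdim hX' K f g hf hg a b (fun j s => fam (f j) (a j) s) (fun j s => fam (g j) (b j) s)
    (fun _ _ => rfl) (fun _ _ => rfl) s₀ (fun j => (hnz _).2 (hA j)) (fun j => (hnz _).2 (hB j)) i
    ((hnz _).2 hJ)
  exact ⟨Z, hZ, fun s hs G hG => h s hs G ((hnz _).2 hG)⟩

end Pool.Agent.Results.MP_a12702_lc.IntermediateSystems
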