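import Pool.Agent.Q72.MX.All

/-!
# A countable/cocountable dichotomy for mixed systems of exponential equations over a curve

Zilber's quasiminimality conjecture predicts that every subset of `ℂ` which is definable (or just
invariant) in `(ℂ, +, ·, exp)` with finitely many parameters is countable or cocountable.

Let `C` be an irreducible plane algebraic curve `F(z,v) = 0`, with finitely many points removed,
let `R_1, …, R_a` be nonzero rational functions and `S_1, …, S_b` arbitrary rational functions on
`C` (the points where they have zeros, respectively poles, are removed), and let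
`P(s; x; y; z, v) = ∑_k f_k(s) P_k(x_1, …, x_a, y_1, …, y_b; z, v)` with polynomials `P_k` and
arbitrary entire functions `f_k`.  We prove unconditionally that the set of those `s ∈ ℂ` for which the system of
equations

`exp x_1 = R_1(z,v), …, exp x_a = R_a(z,v)`, `y_1 = exp(S_1(z,v)), …, y_b = exp(S_b(z,v))`,
`P(s; x; y; z, v) = 0`

has a solution `x ∈ ℂ^a`, `y ∈ ℂ^b`, `(z,v) ∈ C`, is countable or cocountable, as quasiminimality predicts.

The result `CurveTypeDichotomy` of the starting files is the case without the `y_j` (`b = 0`).
In the new case logarithms and exponentials of algebraic functions occur together.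

Proof: if the `S_j` are additively independent then a system which has no solution has at most one power `y^β` with a coefficient that is not
identically zero (the existence theorem `Pool.Agent.Q72.MX.t_M`); the coefficients are
entire functions of `s`, so this leads to countable sets of exceptional `s` and to the case
without `y`.
-/

set_option autoImplicit false

namespace Pool.Agent.Results.MP_a12702_lc.MixedCurveDichotomy

open Polynomial

/-- `ℂ[X][X]` are the polynomials in `z` and `v`; `F.evalEval z v` is the value at `(z, v)`. The
variables of the polynomials `P k` are `x_i` (`Sum.inl i`) and `y_j` (`Sum.inr j`), their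
coefficients are polynomials in `z` and `v`. -/
theorem result :
    ∀ (a b K : ℕ) (F H : ℂ[X][X]) (A B : Fin a → ℂ[X][X]) (A' B' : Fin b → ℂ[X][X])
      (f : Fin K → ℂ → ℂ) (P : Fin K → MvPolynomial (Fin a ⊕ Fin b) ℂ[X][X]) (S : Set ℂ),
      Irreducible F → 1 ≤ F.natDegree → ¬ F ∣ H → (∀ i, ¬ F ∣ A i) → (∀ i, ¬ F ∣ B i) →
      (∀ j, ¬ F ∣ B' j) → (∀ k, Differentiable ℂ (f k)) →
      S = {s : ℂ | ∃ (z v : ℂ) (x : Fin a → ℂ) (y : Fin b → ℂ),
        F.evalEval z v = 0 ∧ H.evalEval z v ≠ 0 ∧
        (∀ i, (A i).evalEval z v ≠ 0 ∧ (B i).evalEval z v ≠ 0) ∧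
        (∀ j, (B' j).evalEval z v ≠ 0) ∧
        (∀ i, Complex.exp (x i) = (A i).evalEval z v / (B i).evalEval z v) ∧
        (∀ j, y j = Complex.exp ((A' j).evalEval z v / (B' j).evalEval z v)) ∧
        ∑ k, f k s * MvPolynomial.eval (Sum.elim x y)
          (MvPolynomial.map (evalEvalRingHom z v) (P k)) = 0} →
      S.Countable ∨ Sᶜ.Countable := by
  rintro a b K F H A B A' B' f P S hF hd hH hA hB hB' hf rfl
  exact Pool.Agent.Q72.MX.all_DQ a b K F H A B A' B' f P hF hd hH hA hB hB' hf

end Pool.Agent.Results.MP_a12702_lc.MixedCurveDichotomy
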